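import Pool.Agent.H10.GM.Targets1

/-!
# A large pattern gives a grid
-/

set_option autoImplicit false

namespace Pool.Agent.H90.GM

open Pool.Agent.H55.GW Pool.Agent.H10.GM

/-- the union of an interval of connected sets which touch their successors is connected -/
theorem cn_int {V : Type} {E : V → V → Prop} (hE : Sy E) (F : ℕ → Set V) (a : ℕ) :
    ∀ b, a < b → (∀ i, a ≤ i → i < b → Cn E (F i)) →
      (∀ i, a ≤ i → i + 1 < b → Tch E (F i) (F (i + 1))) →
      Cn E {v | ∃ i, a ≤ i ∧ i < b ∧ v ∈ F i} := by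
  intro b hb
  obtain ⟨n, rfl⟩ : ∃ n, b = a + 1 + n := ⟨b - (a + 1), by omega⟩
  clear hb
  induction n with
  | zero =>
    intro h1 h2
    have h3 : {v | ∃ i, a ≤ i ∧ i < a + 1 + 0 ∧ v ∈ F i} = F a := by
      ext v
      constructor
      · rintro ⟨i, hi, hi', hv⟩
        have : i = a := by omega
        exact this ▸ hv
      · intro hv
        exact ⟨a, le_refl _, by omega, hv⟩
    rw [h3]
    exact h1 a (le_refl _) (by omega)
  | succ n ih =>
    intro h1 h2
    have h3 : {v | ∃ i, a ≤ i ∧ i < a + 1 + (n + 1) ∧ v ∈ F i} =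
        {v | ∃ i, a ≤ i ∧ i < a + 1 + n ∧ v ∈ F i} ∪ F (a + n + 1) := by
      ext v
      constructor
      · rintro ⟨i, hi, hi', hv⟩
        by_cases h : i < a + 1 + n
        · exact Or.inl ⟨i, hi, h, hv⟩
        · have : i = a + n + 1 := by omega
          exact Or.inr (this ▸ hv)
      · rintro (⟨i, hi, hi', hv⟩ | hv)
        · exact ⟨i, hi, by omega, hv⟩
        · exact ⟨a + n + 1, by omega, by omega, hv⟩
    rw [h3]
    refine Cn.union_touch hE (ih (fun i hi hi' => h1 i hi (by omega))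
      (fun i hi hi' => h2 i hi (by omega))) (h1 _ (by omega) (by omega)) ?_
    refine Tch.mono (h2 (a + n) (by omega) (by omega)) ?_ (le_refl _)
    intro v hv
    exact ⟨a + n, by omega, by omega, hv⟩

/-- pigeonhole: many columns with the same value -/
theorem pig (r N d : ℕ) (f : ℕ → Fin r → Fin N) (hd : N ^ r * (r * r + 1) ≤ d) (hN : 0 < N) :
    ∃ (y : Fin r → Fin N) (q : ℕ → ℕ), (∀ a b, a < b → b ≤ r * r → q a < q b) ∧
      ∀ a ≤ r * r, q a < d ∧ f (q a) = y := by
  classical
  have : Nonempty (Fin r → Fin N) := ⟨fun _ => ⟨0, hN⟩⟩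
  have h1 : (Finset.univ : Finset (Fin r → Fin N)).card * (r * r + 1) ≤ (Finset.range d).card := by
    rw [Finset.card_univ, Fintype.card_fun, Fintype.card_fin, Fintype.card_fin, Finset.card_range]
    exact hd
  obtain ⟨y, -, hy⟩ := Finset.exists_le_card_fiber_of_mul_le_card_of_maps_to
    (s := Finset.range d) (t := Finset.univ) (f := f) (fun a _ => Finset.mem_univ _)
    Finset.univ_nonempty h1
  obtain ⟨A, hA, hc⟩ := Finset.exists_subset_card_eq hy
  refine ⟨y, fun a => if h : a < r * r + 1 then A.orderEmbOfFin hc ⟨a, h⟩ else 0, ?_, ?_⟩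
  · intro a b hab hb
    have hb' : b < r * r + 1 := by omega
    have ha' : a < r * r + 1 := by omega
    simp only [dif_pos ha', dif_pos hb']
    exact (A.orderEmbOfFin hc).strictMono hab
  · intro a ha
    have ha' : a < r * r + 1 := by omega
    simp only [dif_pos ha']
    have h2 := hA (A.orderEmbOfFin_mem hc ⟨a, ha'⟩)
    rw [Finset.mem_filter, Finset.mem_range] at h2
    exact h2

theorem pf_PAT (hGT : T_GT) : T_PAT := by
  intro r
  obtain ⟨N, hN, hG⟩ := hGT r
  refine ⟨N, N ^ r * (r * r + 1) + 1, hN, Nat.succ_pos _, ?_⟩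
  intro V E hE S W hP
  generalize hd : N ^ r * (r * r + 1) + 1 = d at hP
  have key : ∀ i, ∃ (t : ℕ → Fin N) (L : ℕ → Set V), i < d →
      (∀ i < r, ∀ j < r, t i = t j → i = j) ∧
        ∀ j, j + 1 < r → L j ⊆ W i ∧ (∀ k < r, Disjoint (L j) (S (t k) i)) ∧
          Cn E (S (t j) i ∪ L j) ∧ Tch E (S (t j) i ∪ L j) (S (t (j + 1)) i) := by
    intro i
    by_cases hi : i < d
    · obtain ⟨t, L, h⟩ := hG V E hE (W i) (fun j => S j i) (hP.cnW i hi)
        (fun j => ⟨hP.cn j i hi, hP.sub j i hi⟩) (fun j j' hj => hP.dj j j' hj i hi)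
      exact ⟨t, L, fun _ => h⟩
    · exact ⟨fun _ => ⟨0, hN⟩, fun _ => ∅, fun h => absurd h hi⟩
  choose t' L hL using key
  obtain ⟨y, q, hq1, hq2⟩ := pig r N d (fun i k => t' i k) (by omega) hN
  have hq0 : ∀ a ≤ r * r, q a < d := fun a ha => (hq2 a ha).1
  have hqt : ∀ a ≤ r * r, ∀ j < r, t' (q a) j = t' (q 0) j := by
    intro a ha j hj
    have h1 := congrFun (hq2 a ha).2 ⟨j, hj⟩
    have h2 := congrFun (hq2 0 (Nat.zero_le _)).2 ⟨j, hj⟩
    simp only at h1 h2
    rw [h1, h2]
  generalize htd : t' (q 0) = t at hqt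
  have htinj : ∀ i < r, ∀ j < r, t i = t j → i = j := by
    rw [← htd]
    exact (hL (q 0) (hq0 0 (Nat.zero_le _))).1
  have hqle : ∀ a b, a ≤ b → b ≤ r * r → q a ≤ q b := by
    intro a b hab hb
    rcases Nat.lt_or_eq_of_le hab with h | h
    · exact (hq1 a b h hb).le
    · rw [h]
  have hkr : ∀ k < r, k * r + r ≤ r * r := by
    intro k hk
    calc k * r + r = (k + 1) * r := by ring
      _ ≤ r * r := Nat.mul_le_mul_right _ hk
  -- the link facts
  have hlk : ∀ k < r, ∀ j, j + 1 < r → L (q (k * r + j)) j ⊆ W (q (k * r + j)) ∧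
      (∀ k' < r, Disjoint (L (q (k * r + j)) j) (S (t k') (q (k * r + j)))) ∧
      Cn E (S (t j) (q (k * r + j)) ∪ L (q (k * r + j)) j) ∧
      Tch E (S (t j) (q (k * r + j)) ∪ L (q (k * r + j)) j)
        (S (t (j + 1)) (q (k * r + j))) := by
    intro k hk j hj
    have h0 := hkr k hk
    have h1 : k * r + j ≤ r * r := by omega
    obtain ⟨h2, h3, h4, h5⟩ := (hL (q (k * r + j)) (hq0 _ h1)).2 j hj
    refine ⟨h2, ?_, ?_, ?_⟩
    · intro k' hk'
      have := h3 k' hk'
      rwa [hqt _ h1 k' hk'] at this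
    · rwa [hqt _ h1 j (by omega)] at h4
    · rwa [hqt _ h1 j (by omega), hqt _ h1 (j + 1) hj] at h5
  have hblk : ∀ k < r, ∀ j < r, q (k * r) ≤ q (k * r + j) ∧ q (k * r + j) < q (k * r + r) := by
    intro k hk j hj
    have h0 := hkr k hk
    exact ⟨hqle _ _ (by omega) (by omega), hq1 _ _ (by omega) (by omega)⟩
  have hbd : ∀ k < r, ∀ i, i < q (k * r + r) → i < d := by
    intro k hk i hi
    exact hi.trans (hq0 _ (hkr k hk))
  refine ⟨fun j k => {v | (∃ i, q (k * r) ≤ i ∧ i < q (k * r + r) ∧ v ∈ S (t j) i) ∨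
    (j + 1 < r ∧ v ∈ L (q (k * r + j)) j)}, ?_, ?_, ?_, ?_⟩
  · -- connected
    intro j hj k hk
    have hU : Cn E {v | ∃ i, q (k * r) ≤ i ∧ i < q (k * r + r) ∧ v ∈ S (t j) i} := by
      refine cn_int hE (fun i => S (t j) i) _ _ ?_ ?_ ?_
      · exact (hblk k hk j hj).1.trans_lt (hblk k hk j hj).2
      · intro i _ hi
        exact hP.cn _ i (hbd k hk i hi)
      · intro i _ hi
        exact hP.nx _ i (hbd k hk _ hi)
    by_cases hj1 : j + 1 < r
    · have h4 := (hlk k hk j hj1).2.2.1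
      have h5 : {v | (∃ i, q (k * r) ≤ i ∧ i < q (k * r + r) ∧ v ∈ S (t j) i) ∨
          (j + 1 < r ∧ v ∈ L (q (k * r + j)) j)} =
          {v | ∃ i, q (k * r) ≤ i ∧ i < q (k * r + r) ∧ v ∈ S (t j) i} ∪
            (S (t j) (q (k * r + j)) ∪ L (q (k * r + j)) j) := by
        ext v
        constructor
        · rintro (h | ⟨-, h⟩)
          · exact Or.inl h
          · exact Or.inr (Or.inr h)
        · rintro (h | h | h)
          · exact Or.inl h
          · exact Or.inl ⟨_, (hblk k hk j hj).1, (hblk k hk j hj).2, h⟩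
          · exact Or.inr ⟨hj1, h⟩
      beta_reduce
      rw [h5]
      refine Cn.union_meet hE hU h4 ?_
      obtain ⟨v, hv⟩ := (hP.cn (t j) _ (hbd k hk _ (hblk k hk j hj).2)).1
      exact ⟨v, ⟨_, (hblk k hk j hj).1, (hblk k hk j hj).2, hv⟩, Or.inl hv⟩
    · have h5 : {v | (∃ i, q (k * r) ≤ i ∧ i < q (k * r + r) ∧ v ∈ S (t j) i) ∨
          (j + 1 < r ∧ v ∈ L (q (k * r + j)) j)} =
          {v | ∃ i, q (k * r) ≤ i ∧ i < q (k * r + r) ∧ v ∈ S (t j) i} := by
        ext v
        constructor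
        · rintro (h | ⟨h, -⟩)
          · exact h
          · exact absurd h hj1
        · exact fun h => Or.inl h
      beta_reduce
      rw [h5]
      exact hU
  · -- disjoint
    intro j hj k hk j' hj' k' hk' hne
    rw [Set.disjoint_left]
    -- the column of an element
    have hcol : ∀ j < r, ∀ k < r, ∀ v, ((∃ i, q (k * r) ≤ i ∧ i < q (k * r + r) ∧ v ∈ S (t j) i) ∨
        (j + 1 < r ∧ v ∈ L (q (k * r + j)) j)) →
        ∃ i, q (k * r) ≤ i ∧ i < q (k * r + r) ∧ v ∈ W i ∧
          (v ∈ S (t j) i ∨ (j + 1 < r ∧ i = q (k * r + j) ∧ v ∈ L (q (k * r + j)) j)) := by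
      rintro j hj k hk v (⟨i, h1, h2, h3⟩ | ⟨h1, h2⟩)
      · exact ⟨i, h1, h2, hP.sub _ i (hbd k hk i h2) h3, Or.inl h3⟩
      · exact ⟨_, (hblk k hk j hj).1, (hblk k hk j hj).2, (hlk k hk j h1).1 h2,
          Or.inr ⟨h1, rfl, h2⟩⟩
    intro v hv hv'
    obtain ⟨i, h1, h2, h3, h4⟩ := hcol j hj k hk v hv
    obtain ⟨i', h1', h2', h3', h4'⟩ := hcol j' hj' k' hk' v hv'
    have hii : i = i' := by
      by_contra hcon
      exact Set.disjoint_left.1 (hP.djW i (hbd k hk i h2) i' (hbd k' hk' i' h2') hcon) h3 h3'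
    subst hii
    have hkk : k = k' := by
      rcases Nat.lt_trichotomy k k' with h | h | h
      · exfalso
        have h5 : k * r + r ≤ k' * r := by
          calc k * r + r = (k + 1) * r := by ring
            _ ≤ k' * r := Nat.mul_le_mul_right _ h
        have h6 := hqle _ _ h5 (by have := hkr k' hk'; omega)
        omega
      · exact h
      · exfalso
        have h5 : k' * r + r ≤ k * r := by
          calc k' * r + r = (k' + 1) * r := by ring
            _ ≤ k * r := Nat.mul_le_mul_right _ h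
        have h6 := hqle _ _ h5 (by have := hkr k hk; omega)
        omega
    subst hkk
    have hjj : j ≠ j' := by
      rcases hne with h | h
      · exact h
      · exact absurd rfl h
    rcases h4 with h4 | ⟨h4, h5, h6⟩ <;> rcases h4' with h4' | ⟨h4', h5', h6'⟩
    · exact Set.disjoint_left.1 (hP.dj (t j) (t j') (fun h => hjj (htinj j hj j' hj' h)) i
        (hbd k hk i h2)) h4 h4'
    · have h7 := (hlk k hk j' h4').2.1 j hj
      rw [h5'] at h4
      exact Set.disjoint_left.1 h7 h6' h4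
    · have h7 := (hlk k hk j h4).2.1 j' hj'
      rw [h5] at h4'
      exact Set.disjoint_left.1 h7 h6 h4'
    · rw [h5] at h5'
      have h0 := hkr k hk
      rcases Nat.lt_or_gt_of_ne hjj with h | h
      · have := hq1 (k * r + j) (k * r + j') (by omega) (by omega)
        omega
      · have := hq1 (k * r + j') (k * r + j) (by omega) (by omega)
        omega
  · -- vertical edges
    intro j k hj hk
    refine Tch.mono (hlk k hk j hj).2.2.2 ?_ ?_
    · rintro v (hv | hv)
      · exact Or.inl ⟨_, (hblk k hk j (by omega)).1, (hblk k hk j (by omega)).2, hv⟩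
      · exact Or.inr ⟨hj, hv⟩
    · intro v hv
      exact Or.inl ⟨_, (hblk k hk j (by omega)).1, (hblk k hk j (by omega)).2, hv⟩
  · -- horizontal edges
    intro j k hj hk
    have hr : 0 < r := by omega
    have h1 : (k + 1) * r = k * r + r := by ring
    have h2 := hq1 (k * r) (k * r + r) (by omega) (hkr k (by omega))
    have h3 := hblk (k + 1) hk 0 hr
    rw [h1, Nat.add_zero] at h3
    obtain ⟨i, hi⟩ : ∃ i, q (k * r + r) = i + 1 := ⟨q (k * r + r) - 1, by omega⟩
    have h4 : i + 1 < d := by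
      rw [← hi]
      exact hq0 _ (hkr k (by omega))
    refine Tch.mono (hP.nx (t j) i h4) ?_ ?_
    · intro v hv
      exact Or.inl ⟨i, by omega, by omega, hv⟩
    · intro v hv
      refine Or.inl ⟨i + 1, ?_, ?_, hv⟩
      · simp only [h1]
        omega
      · simp only [h1]
        omega

end Pool.Agent.H90.GM
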